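import Pool.Agent.Results.MP_ce3247_an.RiemannianCorners

/-! Mather's beta function need not be differentiable in `k` directions at a `k`-irrational class,
even for the kinetic energy of a Riemannian metric of class `C^∞` on `T^n`, for `4 ≤ k ≤ n` and
`10 ≤ k + n`. -/

open MeasureTheory
open scoped ContDiff

namespace Pool.Agent.Lib.MP_ce3247_an.Variants.RiemannianCorner

open Pool.Agent.Lib.MP_ce3247_an

theorem result (n k : ℕ) (hk : 4 ≤ k) (hkn : k ≤ n) (hn : 10 ≤ k + n) :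
    ∃ (g : Tor n → E n →L[ℝ] E n →L[ℝ] ℝ) (L : Phase n → ℝ) (Φ : ℝ → Phase n → Phase n) (h : E n),
      (∀ x v w, g x v w = g x w v) ∧ (∀ z, L z = g z.1 z.2.1 z.2.1 / 2) ∧ Tonelli 2 L Φ ∧
      (ContDiff ℝ ∞ fun z : E n × E n × ℝ => L (proj z.1 z.2.1 z.2.2)) ∧
      closure (Set.range fun m : ℤ => toTor ((m : ℝ) • h)) = subTor n k ∧
      closure (Set.range fun s : ℝ => toTor (s • h)) = subTor n k ∧
      (∃ β : E n → ℝ, ConvexOn ℝ Set.univ β ∧ ∀ h', beta L Φ h' = β h') ∧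
      ¬ DiffIn (beta L Φ) h k ∧
      ∃ (b : ℝ) (l : E n) (c : Fin (n - k + 1) → E n), beta L Φ h = b ∧ LinearIndependent ℝ c ∧
        (∀ h', ((b + ∑ j, l j * (h' j - h j) : ℝ) : EReal) ≤ beta L Φ h') ∧
        ∀ i h', ((b + ∑ j, (l j + c i j) * (h' j - h j) : ℝ) : EReal) ≤ beta L Φ h' := by
  obtain ⟨j, rfl⟩ : ∃ j, k = j + 1 + 1 := ⟨k - 2, by omega⟩
  obtain ⟨m, rfl⟩ : ∃ m, n = m + 3 := ⟨n - 3, by omega⟩
  have h : (j + 1 + 1 - (j + 1)) * (m + 3 - 1) < (j + 1 - 1) * (m + 3 - 3) := by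
    rw [Nat.add_sub_cancel_left, one_mul, Nat.add_sub_cancel, Nat.add_sub_cancel,
      show m + 3 - 1 = m + 2 from rfl]
    rcases (by omega : (j = 2 ∧ 3 ≤ m) ∨ (3 ≤ j ∧ 2 ≤ m)) with ⟨rfl, h⟩ | ⟨h, h'⟩
    · omega
    · nlinarith
  obtain ⟨g, L, Φ, h, g1, g2, h1, h0, h2, h3, h9, h4, b, l, c, h5, h7, h6, h8⟩ :=
    Pool.Agent.Results.MP_ce3247_an.RiemannianCorners.result _ _ (j + 1) (Nat.lt_succ_self _) hkn h
  have e : m + 3 - (j + 1 + 1) + 1 = m + 3 - (j + 1) := by omega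
  exact ⟨g, L, Φ, h, g1, g2, h1, h0, h2, h3, h9, h4 _ (Nat.lt_succ_self _), b, l, c ∘ Fin.cast e,
    h5, h7.comp _ (Fin.cast_injective e), h6, fun i => h8 _⟩

end Pool.Agent.Lib.MP_ce3247_an.Variants.RiemannianCorner
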