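import Pool.Agent.Results.MP_ce3247_an.SmoothCorners

/-! Mather's beta function need not be differentiable in `k` directions at a `k`-irrational class,
even for a Lagrangian of class `C^∞`: time-periodic Tonelli Lagrangians on `T^d`, for `3 ≤ k ≤ d`
and `8 ≤ k + d`. -/

open MeasureTheory
open scoped ContDiff

namespace Pool.Agent.Lib.MP_ce3247_an.Variants.SmoothCorner

open Pool.Agent.Lib.MP_ce3247_an

theorem result (d k : ℕ) (hk : 3 ≤ k) (hkd : k ≤ d) (hd : 8 ≤ k + d) :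
    ∃ (L : Phase d → ℝ) (Φ : ℝ → Phase d → Phase d) (h : E d), Tonelli 2 L Φ ∧
      (ContDiff ℝ ∞ fun z : E d × E d × ℝ => L (proj z.1 z.2.1 z.2.2)) ∧
      closure (Set.range fun n : ℤ => toTor ((n : ℝ) • h)) = subTor d k ∧
      closure (Set.range fun s : ℝ => toTor (s • h)) = subTor d k ∧
      (∃ b : E d → ℝ, ConvexOn ℝ Set.univ b ∧ ∀ h', beta L Φ h' = b h') ∧
      ¬ DiffIn (beta L Φ) h k ∧ beta L Φ h = 0 ∧ (∀ h', 0 ≤ beta L Φ h') ∧
      ∃ c : Fin (d - k + 1) → E d, LinearIndependent ℝ c ∧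
        ∀ i h', ((∑ j, c i j * (h' j - h j) : ℝ) : EReal) ≤ beta L Φ h' := by
  obtain ⟨j, rfl⟩ : ∃ j, k = j + 1 := ⟨k - 1, by omega⟩
  obtain ⟨m, rfl⟩ : ∃ m, d = m + 2 := ⟨d - 2, by omega⟩
  have h : (j + 1 - j) * (m + 2) < j * (m + 2 - 2) := by
    rw [Nat.add_sub_cancel_left, one_mul, Nat.add_sub_cancel]
    rcases (by omega : (j = 2 ∧ 3 ≤ m) ∨ (3 ≤ j ∧ 2 ≤ m)) with ⟨rfl, h⟩ | ⟨h, h'⟩
    · omega
    · nlinarith
  obtain ⟨L, Φ, h, h1, h0, h2, h3, h9, h4, h5, h6, c, h7, h8⟩ :=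
    Pool.Agent.Results.MP_ce3247_an.SmoothCorners.result _ (j + 1) j j.lt_succ_self hkd h
  have e : m + 2 - (j + 1) + 1 = m + 2 - j := by omega
  exact ⟨L, Φ, h, h1, h0, h2, h3, h9, h4 _ j.lt_succ_self, h5, h6, c ∘ Fin.cast e,
    h7.comp _ (Fin.cast_injective e), fun i => h8 _⟩

end Pool.Agent.Lib.MP_ce3247_an.Variants.SmoothCorner
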