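import Pool.Agent.Results.MP_ce3247_an.SharpCorners

/-! Mather's beta function need not be differentiable in `k` directions at a `k`-irrational class:
time-periodic Tonelli Lagrangians of class `C^d` on `T^d`, for `1 ≤ k ≤ d`, `2 ≤ d` and
`(d, k) ≠ (2, 1)`. -/

open MeasureTheory

namespace Pool.Agent.Lib.MP_ce3247_an.Variants.TorusCorners

open Pool.Agent.Lib.MP_ce3247_an

theorem result (d k : ℕ) (hd : 2 ≤ d) (hk : 1 ≤ k) (hkd : k ≤ d) (hne : (d, k) ≠ (2, 1)) :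
    ∃ (L : Phase d → ℝ) (Φ : ℝ → Phase d → Phase d) (h : E d), Tonelli d L Φ ∧
      closure (Set.range fun n : ℤ => toTor ((n : ℝ) • h)) = subTor d k ∧
      closure (Set.range fun s : ℝ => toTor (s • h)) = subTor d k ∧
      ¬ DiffIn (beta L Φ) h k ∧ beta L Φ h = 0 ∧ (∀ h', 0 ≤ beta L Φ h') ∧
      ∃ c : Fin (d - k + 1) → E d, LinearIndependent ℝ c ∧
        ∀ i h', ((∑ j, c i j * (h' j - h j) : ℝ) : EReal) ≤ beta L Φ h' := by
  obtain ⟨j, rfl⟩ : ∃ j, k = j + 1 := ⟨k - 1, by omega⟩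
  have h : (j + 1 - j) * (d + 2) < 2 * d * (j + 1) := by
    rw [Nat.add_sub_cancel_left, one_mul]
    rcases Nat.eq_zero_or_pos j with rfl | h
    · have : d ≠ 2 := fun h => hne (by rw [h])
      omega
    · nlinarith
  obtain ⟨L, Φ, h, h1, h2, h3, -, h4, h5, h6, c, h7, h8⟩ :=
    Pool.Agent.Results.MP_ce3247_an.SharpCorners.result d (j + 1) j d hd le_rfl j.lt_succ_self hkd h
  have e : d - (j + 1) + 1 = d - j := by omega
  exact ⟨L, Φ, h, h1, h2, h3, h4 _ j.lt_succ_self, h5, h6, c ∘ Fin.cast e,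
    h7.comp _ (Fin.cast_injective e), fun i => h8 _⟩

end Pool.Agent.Lib.MP_ce3247_an.Variants.TorusCorners
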